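import Pool.Agent.Work.MP_db9399_en.PROB

/-!
# MP_db9399, OWN (owner helper6): own colours after everything else, all `n`, sparse graphs

A proper vertex colouring with slightly fewer than `d` colours which looks random for given tests.
`x` = the scale: `log d ≤ x`, `x ^ N ≤ d`. See `BLUEPRINT.md`.
-/

set_option autoImplicit false

namespace Pool.Agent.Work.MP_db9399_ow

open Finset Classical
open Pool.Agent.Work.MP_db9399_all (nb mis pr DepOnI)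
open Pool.Agent.Work.MP_db9399_en (ex)

universe u

/-! ## One batch -/

section batch
variable {V : Type u} [Fintype V] {P M : ℕ}

/-- the vertices of `U` which are offered to the colour `b` -/
noncomputable def off (U : Finset V) (T : ℕ) (ω : Fin P × V → Fin M) (b : Fin P) : Finset V :=
  U.filter (fun v => (ω (b, v) : ℕ) < T)

/-- the local minima of the labels of the colour `b` -/
noncomputable def loc (G : SimpleGraph V) (U : Finset V) (T : ℕ) (ω : Fin P × V → Fin M)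
    (b : Fin P) : Finset V :=
  U.filter (fun v => (ω (b, v) : ℕ) < T ∧ ∀ w ∈ nb G v ∩ U, (ω (b, v) : ℕ) < ω (b, w))

/-- number of offers -/
noncomputable def num (U : Finset V) (T : ℕ) (B : Finset (Fin P)) (ω : Fin P × V → Fin M)
    (v : V) : ℕ := (B.filter (fun b => v ∈ off U T ω b)).card

/-- the probability to be a local minimum among `n + 1` vertices -/
noncomputable def Pn (M T n : ℕ) : ℝ :=
  ∑ t ∈ range T, 1 / (M : ℝ) * (1 - ((t : ℝ) + 1) / M) ^ n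

/-- the probability that `v` is a local minimum -/
noncomputable def Pv (G : SimpleGraph V) (U : Finset V) (M T : ℕ) (v : V) : ℝ :=
  Pn M T (nb G v ∩ U).card

/-- nonnegative tests with supports `S` -/
structure Tst {τ : Type u} [Fintype τ] (K W : ℝ) (S : τ → Finset V) (F : τ → Fin P → V → ℝ) :
    Prop where
  sup : ∀ j b v, v ∉ S j → F j b v = 0
  nn : ∀ j b v, 0 ≤ F j b v
  le : ∀ j b v, F j b v ≤ K
  sum : ∀ j b, ∑ v, F j b v ≤ 1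
  card : ∀ j, ((S j).card : ℝ) ≤ W
  mul : ∀ v, ((univ.filter (fun j => v ∈ S j)).card : ℝ) ≤ W

/-- signed tests with supports `S`; `∑ v, g ^ 2 ≤ e j` -/
structure Sig {J : Type u} [Fintype J] (K W : ℝ) (S : J → Finset V) (g : J → Fin P → V → ℝ)
    (e : J → ℝ) : Prop where
  sup : ∀ j b v, v ∉ S j → g j b v = 0
  le : ∀ j b v, |g j b v| ≤ K
  sum : ∀ j b, ∑ v, |g j b v| ≤ 1
  sq : ∀ j b, ∑ v, g j b v ^ 2 ≤ e j
  e0 : ∀ j, 0 ≤ e j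
  card : ∀ j, ((S j).card : ℝ) ≤ W
  mul : ∀ v, ((univ.filter (fun j => v ∈ S j)).card : ℝ) ≤ W

/-- upper tests -/
structure Upt {R : Type u} [Fintype R] (s W : ℝ) (Q : R → Finset (Fin P × V)) : Prop where
  card : ∀ q, ((Q q).card : ℝ) ≤ s
  mul : ∀ v, ((univ.filter (fun q => ∃ b, (b, v) ∈ Q q)).card : ℝ) ≤ W

/-- the result of one batch with the colours `B`: classes `A b`, offered sets `O b`. `Pr v` = the
probability of `v`, `ε`, `ε1` = errors, `μ j` = bound for the signed tests, `ν` = bound for the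
upper tests, `a` = density of non-adjacent pairs -/
structure Bch {τ J R : Type u} [Fintype τ] [Fintype J] [Fintype R] (G : SimpleGraph V)
    (U : Finset V) (B : Finset (Fin P)) (Pr : V → ℝ) (F : τ → Fin P → V → ℝ)
    (g : J → Fin P → V → ℝ) (Q : R → Finset (Fin P × V)) (μ : J → ℝ) (D : ℕ)
    (ε ε1 ν a : ℝ) (A O : Fin P → Finset V) : Prop where
  AO : ∀ b, A b ⊆ O b
  OU : ∀ b, O b ⊆ U
  ind : ∀ b, ∀ v ∈ A b, ∀ w ∈ A b, ¬ G.Adj v w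
  dev : ∀ j, |∑ b ∈ B, (∑ v ∈ A b, F j b v - ∑ v ∈ U, Pr v * F j b v)| ≤ ε
  mlt : ∀ j, ∑ b ∈ B, ∑ v ∈ (O b).filter (fun v => 2 ≤ (B.filter (fun b' => v ∈ O b')).card),
    F j b v ≤ ε1
  sgn : ∀ j, ∑ b ∈ B, |∑ v ∈ A b, g j b v - ∑ v ∈ U, Pr v * g j b v| ≤ μ j
  upp : ∀ q, (((Q q).filter (fun y => y.1 ∈ B ∧ y.2 ∈ O y.1)).card : ℝ) ≤ ν
  two : ∀ v, a * (D : ℝ) ^ 2 ≤ ((mis G (nb G v ∩ U)).card : ℝ) →
    a / 256 * B.card ≤ ((B.filter (fun b => 2 ≤ (nb G v ∩ A b).card)).card : ℝ)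

end batch

/-! ### Tools -/

/-- SYM (block, from `Stmt_LLLI`): symmetric local lemma in a product space. `T = 1 / (4 (s + 1))`;
events with empty scope are constant and do not hold. -/
def Stmt_SYM : Prop :=
  ∀ (J : Type u) [Fintype J] (M : ℕ) (κ : Type u) [Fintype κ] (Q : κ → Finset J)
    (E : κ → (J → Fin M) → Prop) (p s t : ℝ), 0 < M → 0 ≤ s → 0 ≤ t →
    (∀ k, DepOnI (Q k) (E k)) →
    (∀ k, ((Q k).card : ℝ) ≤ s) →
    (∀ y, ((univ.filter (fun k => y ∈ Q k)).card : ℝ) ≤ t) → 0 ≤ p →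
    (∀ k, pr (E k) ≤ p) → 16 * p * (s + 1) * (t + 1) ≤ 1 → ∃ f : J → Fin M, ∀ k, ¬ E k f

/-- OFFX (block, from `chern_up`): offers, upper tail. -/
def Stmt_OFFX : Prop :=
  ∀ {V : Type u} [Fintype V] (P M T : ℕ) (U : Finset V) (f : Fin P × V → ℝ) (q K s ξ Λ : ℝ),
    0 < M → (T : ℝ) ≤ q * M → 0 < q → 0 < K → 0 < s → 0 ≤ Λ → (∀ y, 0 ≤ f y) → (∀ y, f y ≤ K) →
    ∑ y, f y ≤ s → 2 * q * s ≤ ξ → 8 * K * Λ ≤ ξ →
    pr (fun ω : Fin P × V → Fin M => ξ ≤ ∑ y ∈ univ.filter (fun y : Fin P × V =>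
      y.2 ∈ off U T ω y.1), f y) ≤ Real.exp (-Λ)

/-- PNB (block): bounds for `Pn`; `(n + 1) a ^ n / M` between differences of powers. -/
def Stmt_PNB : Prop :=
  ∀ M T n : ℕ, 0 < M → T + 1 ≤ M → Pn M T n ≤ 1 / ((n : ℝ) + 1) ∧
    (1 - ((n : ℝ) + 1) / M - Real.exp (-((T : ℝ) * ((n : ℝ) + 1) / M))) / ((n : ℝ) + 1) ≤
      Pn M T n ∧ 0 ≤ Pn M T n

/-- LOCP (block): the probability of a local minimum. -/
def Stmt_LOCP : Prop :=
  ∀ {V : Type u} [Fintype V] (P M T : ℕ) (G : SimpleGraph V) (U : Finset V) (b : Fin P) (v : V),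
    0 < M → T ≤ M → v ∈ U →
    ex (fun ω : Fin P × V → Fin M => if v ∈ loc G U T ω b then (1 : ℝ) else 0) = Pv G U M T v

/-- LOC2 (block): the probability of two local minima which are not adjacent. -/
def Stmt_LOC2 : Prop :=
  ∀ {V : Type u} [Fintype V] (P M T : ℕ) (G : SimpleGraph V) (U : Finset V) (b : Fin P)
    (v w : V), 0 < M → T ≤ M → v ∈ U → w ∈ U → v ≠ w → ¬ G.Adj v w →
    ex (fun ω : Fin P × V → Fin M => if v ∈ loc G U T ω b ∧ w ∈ loc G U T ω b then (1 : ℝ) else 0) =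
      ∑ t ∈ range T, ∑ t' ∈ range T, 1 / (M : ℝ) ^ 2 *
        ((1 - ((t : ℝ) + 1) / M) ^ ((nb G v ∩ U) \ nb G w).card *
          (1 - ((t' : ℝ) + 1) / M) ^ ((nb G w ∩ U) \ nb G v).card *
          (1 - (((max t t' : ℕ) : ℝ) + 1) / M) ^ (nb G v ∩ nb G w ∩ U).card)

/-- COVB (block, pure numbers): the covariance. For `t' ≤ t`:
`a(t) ^ m (1 - a(t') ^ m) ≤ a(t) ^ m m (t' + 1) / M`; `∑ s ^ 2 exp (- s n / M) ≤ 16 (M / n) ^ 3`. -/
def Stmt_COVB : Prop :=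
  ∀ M T n1 n2 m n : ℕ, 0 < M → T + 1 ≤ M → 0 < n → n ≤ M → n ≤ n1 + m → n ≤ n2 + m →
    (∑ t ∈ range T, ∑ t' ∈ range T, 1 / (M : ℝ) ^ 2 * ((1 - ((t : ℝ) + 1) / M) ^ n1 *
      (1 - ((t' : ℝ) + 1) / M) ^ n2 * (1 - (((max t t' : ℕ) : ℝ) + 1) / M) ^ m)) -
      Pn M T (n1 + m) * Pn M T (n2 + m) ≤ 32 * m / (n : ℝ) ^ 3 ∧
    0 ≤ (∑ t ∈ range T, ∑ t' ∈ range T, 1 / (M : ℝ) ^ 2 * ((1 - ((t : ℝ) + 1) / M) ^ n1 *
      (1 - ((t' : ℝ) + 1) / M) ^ n2 * (1 - (((max t t' : ℕ) : ℝ) + 1) / M) ^ m)) -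
      Pn M T (n1 + m) * Pn M T (n2 + m)

/-- VAR (block, from LOCP, LOC2, COVB, PNB): the variance. Covariances: equal vertices `≤ 2 / D`,
adjacent: two local minima are not adjacent, `- Pv v * Pv w`; Schur test. -/
def Stmt_VAR : Prop :=
  ∀ {V : Type u} [Fintype V] (P D N1 : ℕ) (G : SimpleGraph V) (U : Finset V) (b : Fin P)
    (g : V → ℝ), 4 ≤ D → 1 ≤ N1 → N1 < D → (∀ v, (nb G v ∩ U).card + 1 ≤ D) →
    (∀ v ∈ U, D ≤ 4 * (nb G v ∩ U).card) →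
    ex (fun ω : Fin P × V → Fin (D * N1) => (∑ v ∈ loc G U (N1 ^ 2) ω b, g v -
      ∑ v ∈ U, Pv G U (D * N1) (N1 ^ 2) v * g v) ^ 2) ≤ 2100 / D * ∑ v ∈ U, g v ^ 2

/-- DEV (block, from OFFX, LOCP, `chern_up`, `chern_low`): truncate
`∑ v ∈ loc, F b v` where `∑ v ∈ off, F b v ≥ ξ` (probability `≤ exp (- Λ)`). -/
def Stmt_DEV : Prop :=
  ∀ {V : Type u} [Fintype V] (P D N1 : ℕ) (G : SimpleGraph V) (U : Finset V)
    (B : Finset (Fin P)) (F : Fin P → V → ℝ) (K ξ Λ ε : ℝ), 1 ≤ N1 → N1 < D → 0 < K → 0 ≤ Λ →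
    0 < ε → ε ≤ 1 → (∀ b v, 0 ≤ F b v) → (∀ b v, F b v ≤ K) → (∀ b, ∑ v, F b v ≤ 1) →
    ∑ b ∈ B, ∑ v ∈ U, Pv G U (D * N1) (N1 ^ 2) v * F b v ≤ 1 → 2 * (N1 : ℝ) / D ≤ ξ →
    8 * K * Λ ≤ ξ → 64 * ξ * Λ ≤ ε ^ 2 → 2 * B.card * Real.exp (-Λ) ≤ ε →
    pr (fun ω : Fin P × V → Fin (D * N1) => ε ≤ |∑ b ∈ B, (∑ v ∈ loc G U (N1 ^ 2) ω b, F b v -
      ∑ v ∈ U, Pv G U (D * N1) (N1 ^ 2) v * F b v)|) ≤ (B.card + 2) * Real.exp (-Λ)

/-- SGN (block, from OFFX, LOCP, VAR, `chern_up`): signed tests, sum of absolute values. -/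
def Stmt_SGN : Prop :=
  ∀ {V : Type u} [Fintype V] (P D N1 : ℕ) (G : SimpleGraph V) (U : Finset V)
    (B : Finset (Fin P)) (g : Fin P → V → ℝ) (K ξ Λ ε e : ℝ), 4 ≤ D → 1 ≤ N1 → N1 < D → 0 < K →
    0 ≤ Λ → 0 < ε → ε ≤ 1 → (∀ v, (nb G v ∩ U).card + 1 ≤ D) →
    (∀ v ∈ U, D ≤ 4 * (nb G v ∩ U).card) → (∀ b v, |g b v| ≤ K) → (∀ b, ∑ v, |g b v| ≤ 1) →
    (∀ b, ∑ v ∈ U, g b v ^ 2 ≤ e) → 0 ≤ e → B.card * Real.sqrt (2100 * e / D) ≤ 1 →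
    2 * (N1 : ℝ) / D ≤ ξ → 8 * K * Λ ≤ ξ → 64 * ξ * Λ ≤ ε ^ 2 →
    pr (fun ω : Fin P × V → Fin (D * N1) => B.card * Real.sqrt (2100 * e / D) + ε ≤
      ∑ b ∈ B, |∑ v ∈ loc G U (N1 ^ 2) ω b, g b v -
        ∑ v ∈ U, Pv G U (D * N1) (N1 ^ 2) v * g b v|) ≤ (B.card + 1) * Real.exp (-Λ)

/-- MLT (block, from OFFX, `chern_up`): vertices with two offers. Mean at most `m / 2`,
`m = 2 (|B| N1 / D) ^ 2`; terms (one for every `v ∈ S`) truncated at `num ≤ ν`. -/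
def Stmt_MLT : Prop :=
  ∀ {V : Type u} [Fintype V] (P D N1 : ℕ) (U S : Finset V) (B : Finset (Fin P))
    (F : Fin P → V → ℝ) (K Λ ν : ℝ), 1 ≤ N1 → N1 < D → 0 < K → 0 ≤ Λ → 1 ≤ ν →
    (∀ b v, 0 ≤ F b v) → (∀ b v, F b v ≤ K) → (∀ b, ∑ v, F b v ≤ 1) →
    (∀ b v, v ∉ S → F b v = 0) → 0 < B.card → 2 * (B.card * (N1 : ℝ) / D) ≤ ν → 8 * Λ ≤ ν →
    4 * K * ν * Λ ≤ (B.card * (N1 : ℝ) / D) ^ 2 →
    pr (fun ω : Fin P × V → Fin (D * N1) => 2 * (B.card * (N1 : ℝ) / D) ^ 2 ≤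
      ∑ b ∈ B, ∑ v ∈ (off U (N1 ^ 2) ω b).filter (fun v => 2 ≤ num U (N1 ^ 2) B ω v), F b v) ≤
      (S.card + 1) * Real.exp (-Λ)

/-- TWO (block, from `chern_low`): two local minima in a neighbourhood. Disjoint events: exactly
`w`, `w'` of `N(v)` have labels `< N1`, and no vertex of `N(w) ∪ N(w')` has (probability
`≥ (1 / D) ^ 2 (1 - 1 / D) ^ (3 D) ≥ 1 / (64 D ^ 2)` for every non-adjacent pair). -/
def Stmt_TWO : Prop :=
  ∀ {V : Type u} [Fintype V] (P D N1 : ℕ) (G : SimpleGraph V) (U : Finset V)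
    (B : Finset (Fin P)) (v : V) (a : ℝ), 2 ≤ D → 1 ≤ N1 → N1 < D → 0 < a → a ≤ 1 →
    (∀ w, (nb G w ∩ U).card + 1 ≤ D) → a * (D : ℝ) ^ 2 ≤ ((mis G (nb G v ∩ U)).card : ℝ) →
    pr (fun ω : Fin P × V → Fin (D * N1) =>
      ((B.filter (fun b => 2 ≤ (nb G v ∩ loc G U (N1 ^ 2) ω b).card)).card : ℝ) <
        a / 256 * B.card) ≤ Real.exp (-(a ^ 2 / 300000 * B.card))

/-- BATCH (block, from SYM, OFFX, DEV, SGN, MLT, TWO, PNB). `Λ = x ^ (C + 3)`, `ξ = x ^ E / d`,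
`ν = x ^ (C + 4)`. Every event has the scope `univ ×ˢ (S ∪ N(S))`. For SGN replace `e j / d` by
`min (e j) (x ^ K) / d` (`g ^ 2 ≤ |g| x ^ K / d`). -/
def Stmt_BATCH : Prop :=
  ∀ (A B C K F m : ℕ), A + B + K + 1 ≤ m → ∃ (N x0 : ℕ),
    ∀ {V : Type u} [Fintype V] (G : SimpleGraph V) (d x P D : ℕ) (U : Finset V)
      (Bt : Finset (Fin P)) (a : ℝ) (τ J R : Type u) [Fintype τ] [Fintype J] [Fintype R]
      (Sτ : τ → Finset V) (Ft : τ → Fin P → V → ℝ) (SJ : J → Finset V)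
      (g : J → Fin P → V → ℝ) (e : J → ℝ) (Q : R → Finset (Fin P × V)), x0 ≤ x →
      Real.log d ≤ x → x ^ N ≤ d → P ≤ 2 * d → D ≤ 2 * d → d ≤ D * x ^ B →
      Bt.card * x ^ m ≤ d → d ≤ 2 * (Bt.card * x ^ m) → 1 / (x : ℝ) ^ K ≤ a → a ≤ 1 →
      (∀ v, (nb G v).card ≤ 2 * d) → (∀ v, (nb G v ∩ U).card + 1 ≤ D) →
      (∀ v ∈ U, D ≤ 4 * (nb G v ∩ U).card) →
      Tst ((x : ℝ) ^ K / d) (Real.exp ((x : ℝ) ^ C)) Sτ Ft →
      Sig ((x : ℝ) ^ K / d) (Real.exp ((x : ℝ) ^ C)) SJ g (fun j => e j / d) →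
      Upt (d * (x : ℝ) ^ K) (Real.exp ((x : ℝ) ^ C)) Q →
      ∃ A' O : Fin P → Finset V,
        Bch G U Bt (Pv G U (D * x ^ A) ((x ^ A) ^ 2)) Ft g Q
          (fun j => Bt.card * Real.sqrt (2100 * (e j / d) / D) + 1 / (x : ℝ) ^ F) D
          (1 / (x : ℝ) ^ F) (2 * (Bt.card * (x : ℝ) ^ A / D) ^ 2)
          ((x : ℝ) ^ (A + B + C + K + 5)) a A' O

/-! ## The iteration -/

section iter
variable {V : Type u} [Fintype V] {P : ℕ} {J R : Type u}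

/-- the tests which do not depend on the colour: neighbourhoods, positive and negative parts -/
noncomputable def Hc (G : SimpleGraph V) (d : ℕ) (g : J → Fin P → V → ℝ) :
    V ⊕ (J × Fin P × Bool) → V → ℝ
  | Sum.inl v => fun w => if G.Adj v w then 1 / (2 * (d : ℝ)) else 0
  | Sum.inr (j, b, s) => fun w => max (if s then g j b w else - g j b w) 0

/-- all tests of a batch: constant tests and mixed tests -/
noncomputable def Fm (G : SimpleGraph V) (d : ℕ) (g : J → Fin P → V → ℝ) :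
    (V ⊕ (J × Fin P × Bool)) ⊕ (J × Bool) → Fin P → V → ℝ
  | Sum.inl τ => fun _ w => Hc G d g τ w
  | Sum.inr (j, s) => fun b w => max (if s then g j b w else - g j b w) 0

/-- the new colours after a batch -/
noncomputable def ncol (Bt : Finset (Fin P)) (A : Fin P → Finset V) (c : V → Fin P) (w : V) :
    Fin P :=
  if h : (Bt.filter (fun b => w ∈ A b)).Nonempty then (Bt.filter (fun b => w ∈ A b)).min' h
  else c w

/-- the new uncoloured vertices -/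
noncomputable def nU (Bt : Finset (Fin P)) (A : Fin P → Finset V) (U : Finset V) : Finset V :=
  U \ Bt.biUnion A

/-- The situation after some batches: `U` = uncoloured vertices, `c v < n` = colour of `v ∉ U`,
`u` = density of `U`, `er`, `rr` = errors, `gn` = saved colours. -/
structure Stt [Fintype J] [Fintype R] (G : SimpleGraph V) (d : ℕ) (g : J → Fin P → V → ℝ)
    (e : J → ℝ) (Q : R → Finset (Fin P × V)) (U : Finset V) (c : V → Fin P) (n : ℕ)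
    (u er rr gn ν : ℝ) : Prop where
  low : ∀ v, v ∉ U → (c v : ℕ) < n
  prp : ∀ v w, v ∉ U → w ∉ U → G.Adj v w → c v ≠ c w
  inv : ∀ τ, |∑ v ∈ U, Hc G d g τ v - u * ∑ v, Hc G d g τ v| ≤ er
  o1 : ∀ j, ∑ b ∈ univ.filter (fun b : Fin P => (b : ℕ) < n),
    |∑ v ∈ univ.filter (fun v => v ∉ U ∧ c v = b), g j b v| ≤
      1 / (d : ℝ) * ∑ b ∈ univ.filter (fun b : Fin P => (b : ℕ) < n), |∑ v, g j b v| + rr +
        130 * (1 - Real.sqrt u) * Real.sqrt (e j)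
  o2 : ∀ j, ∑ v ∈ univ.filter (fun v => v ∉ U), |g j (c v) v| ≤
    1 / (d : ℝ) * ∑ b ∈ univ.filter (fun b : Fin P => (b : ℕ) < n), ∑ v, |g j b v| + rr
  upp : ∀ q, (((Q q).filter (fun y => y.2 ∉ U ∧ c y.2 = y.1)).card : ℝ) ≤ ν
  cnt : ∀ v, ((univ.filter (fun b => ∃ w ∈ nb G v, w ∉ U ∧ c w = b)).card : ℝ) +
    (nb G v ∩ U).card + gn ≤ (nb G v).card + rr * d

/-- The hypotheses of the three STP blocks: state, batch with the colours `n, ..., n + |Bt| - 1`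
and numbers. `z = |Bt| / d`. -/
structure Hyp [Fintype J] [Fintype R] (G : SimpleGraph V) (d : ℕ) (g : J → Fin P → V → ℝ)
    (e : J → ℝ) (Q : R → Finset (Fin P × V)) (U : Finset V) (c : V → Fin P) (n : ℕ)
    (u er rr gn ν : ℝ) (D : ℕ) (Bt : Finset (Fin P)) (Pr : V → ℝ) (γ η ε ε1 νb a : ℝ)
    (A O : Fin P → Finset V) : Prop where
  stt : Stt G d g e Q U c n u er rr gn ν
  bch : Bch G U Bt Pr (Fm G d g) g Q
    (fun j => Bt.card * Real.sqrt (2100 * (e j / d) / D) + ε) D ε ε1 νb a A O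
  bt : ∀ b : Fin P, b ∈ Bt ↔ n ≤ (b : ℕ) ∧ (b : ℕ) < n + Bt.card
  d0 : 0 < d
  deg : ∀ v, |((nb G v).card : ℝ) - d| ≤ η * d
  sm : ∀ j b, ∑ v, |g j b v| ≤ 1
  e0 : ∀ j, 0 ≤ e j
  u1 : u ≤ 1
  uz : (Bt.card : ℝ) / d < u
  er0 : 0 ≤ er
  th : 2 * er / u + η ≤ 1 / 10
  eu : er ≤ u / 10
  η0 : 0 ≤ η
  ga0 : 0 ≤ γ
  ga1 : γ ≤ 1 / 10
  ga2 : 1 / (u * d) ≤ γ
  ε0 : 0 ≤ ε
  ε10 : 0 ≤ ε1
  Dl : u * d / 2 ≤ D
  pr1 : ∀ v ∈ U, Pr v ≤ 1 / (((nb G v ∩ U).card : ℝ) + 1)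
  pr2 : ∀ v ∈ U, (1 - γ) / (((nb G v ∩ U).card : ℝ) + 1) ≤ Pr v

end iter

/-- STPI (block, elementary): the invariants after a batch. `|Pr v - 1 / (u d)| ≤ θ / (u d)` with
`θ = 4 er / u + 2 η + 2 γ` for `v ∈ U`; the difference between `∑ b ∈ Bt, ∑ v ∈ A b, h v` and
`∑ v ∈ Bt.biUnion A, h v` is at most `ε1` (`mlt`). -/
def Stmt_STPI : Prop :=
  ∀ {V : Type u} [Fintype V] {P : ℕ} {J R : Type u} [Fintype J] [Fintype R]
    (G : SimpleGraph V) (d : ℕ) (g : J → Fin P → V → ℝ) (e : J → ℝ)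
    (Q : R → Finset (Fin P × V)) (U : Finset V) (c : V → Fin P) (n : ℕ) (u er rr gn ν : ℝ)
    (D : ℕ) (Bt : Finset (Fin P)) (Pr : V → ℝ) (γ η ε ε1 νb a : ℝ) (A O : Fin P → Finset V),
    Hyp G d g e Q U c n u er rr gn ν D Bt Pr γ η ε ε1 νb a A O →
    ∀ τ, |∑ v ∈ nU Bt A U, Hc G d g τ v - (u - Bt.card / d) * ∑ v, Hc G d g τ v| ≤
      er * (1 + 9 * (Bt.card / d) / u) + 4 * (Bt.card / d) * (η + γ) + ε + ε1

/-- STPO (block, elementary): the sums after a batch; class of `b ∈ Bt` = the vertices of `A b`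
which are in no `A b'` with `b' < b`, `b' ∈ Bt`. -/
def Stmt_STPO : Prop :=
  ∀ {V : Type u} [Fintype V] {P : ℕ} {J R : Type u} [Fintype J] [Fintype R]
    (G : SimpleGraph V) (d : ℕ) (g : J → Fin P → V → ℝ) (e : J → ℝ)
    (Q : R → Finset (Fin P × V)) (U : Finset V) (c : V → Fin P) (n : ℕ) (u er rr gn ν : ℝ)
    (D : ℕ) (Bt : Finset (Fin P)) (Pr : V → ℝ) (γ η ε ε1 νb a : ℝ) (A O : Fin P → Finset V),
    Hyp G d g e Q U c n u er rr gn ν D Bt Pr γ η ε ε1 νb a A O → ∀ rr', 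
    rr + Bt.card / d * (14 * er / u + 6 * η + 6 * γ) + 2 * ε + 2 * ε1 ≤ rr' →
    (∀ j, ∑ b ∈ univ.filter (fun b : Fin P => (b : ℕ) < n + Bt.card),
      |∑ v ∈ univ.filter (fun v => v ∉ nU Bt A U ∧ ncol Bt A c v = b), g j b v| ≤
        1 / (d : ℝ) * ∑ b ∈ univ.filter (fun b : Fin P => (b : ℕ) < n + Bt.card),
          |∑ v, g j b v| + rr' +
          130 * (1 - Real.sqrt (u - Bt.card / d)) * Real.sqrt (e j)) ∧
    ∀ j, ∑ v ∈ univ.filter (fun v => v ∉ nU Bt A U), |g j (ncol Bt A c v) v| ≤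
      1 / (d : ℝ) * ∑ b ∈ univ.filter (fun b : Fin P => (b : ℕ) < n + Bt.card),
        ∑ v, |g j b v| + rr'

/-- STPC (block, elementary): colours, upper tests, saved colours after a batch. -/
def Stmt_STPC : Prop :=
  ∀ {V : Type u} [Fintype V] {P : ℕ} {J R : Type u} [Fintype J] [Fintype R]
    (G : SimpleGraph V) (d : ℕ) (g : J → Fin P → V → ℝ) (e : J → ℝ)
    (Q : R → Finset (Fin P × V)) (U : Finset V) (c : V → Fin P) (n : ℕ) (u er rr gn ν : ℝ)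
    (D : ℕ) (Bt : Finset (Fin P)) (Pr : V → ℝ) (γ η ε ε1 νb a : ℝ) (A O : Fin P → Finset V),
    Hyp G d g e Q U c n u er rr gn ν D Bt Pr γ η ε ε1 νb a A O → ∀ gn',
    (gn' = gn ∨ (∀ v, a * (D : ℝ) ^ 2 ≤ ((mis G (nb G v ∩ U)).card : ℝ)) ∧
      gn' = gn + a / 256 * Bt.card) →
    (∀ v, v ∉ nU Bt A U → (ncol Bt A c v : ℕ) < n + Bt.card) ∧
    (∀ v w, v ∉ nU Bt A U → w ∉ nU Bt A U → G.Adj v w → ncol Bt A c v ≠ ncol Bt A c w) ∧
    (∀ q, (((Q q).filter (fun y => y.2 ∉ nU Bt A U ∧ ncol Bt A c y.2 = y.1)).card : ℝ) ≤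
      ν + νb) ∧
    ∀ v, ((univ.filter (fun b => ∃ w ∈ nb G v, w ∉ nU Bt A U ∧ ncol Bt A c w = b)).card : ℝ) +
      (nb G v ∩ nU Bt A U).card + gn' ≤ (nb G v).card + (rr + 2 * ε1) * d

/-- ITER (block, from BATCH, STPI, STPO, STPC, PNB): all batches. `u_i = 1 - i |Bt| / d`,
`er_i = η0 / u_i ^ 10`, last `u` between `1 / x ^ B` and `2 / x ^ B`; `a = 1 / (8 x ^ K1)`, saved
colours while `u ≥ 1 - 1 / (8 x ^ K1)`. -/
def Stmt_ITER : Prop :=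
  ∀ (B C K K1 E : ℕ), 2 * K1 + 4 ≤ B → ∃ (C' N0 N x0 : ℕ),
    ∀ {V : Type u} [Fintype V] (G : SimpleGraph V) (d x P : ℕ) (J R : Type u) [Fintype J]
      [Fintype R] (S : J → Finset V) (g : J → Fin P → V → ℝ) (e : J → ℝ)
      (Q : R → Finset (Fin P × V)), x0 ≤ x → Real.log d ≤ x → x ^ N ≤ d → P ≤ 2 * d →
      (d : ℝ) - d / (x : ℝ) ^ B ≤ P →
      (∀ v, |((nb G v).card : ℝ) - d| ≤ d / (x : ℝ) ^ N0) →
      (∀ v, (d : ℝ) ^ 2 / (x : ℝ) ^ K1 ≤ ((mis G (nb G v)).card : ℝ)) →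
      Sig ((x : ℝ) ^ K / d) (Real.exp ((x : ℝ) ^ C)) S g (fun j => e j / d) →
      Upt (d * (x : ℝ) ^ K) (Real.exp ((x : ℝ) ^ C)) Q →
      ∃ (U : Finset V) (c : V → Fin P),
        (∀ v w, v ∉ U → w ∉ U → G.Adj v w → c v ≠ c w) ∧
        (∀ v, ((nb G v ∩ U).card : ℝ) ≤ 4 * d / (x : ℝ) ^ B) ∧
        (∀ v, (d : ℝ) / (x : ℝ) ^ (2 * K1 + 1) ≤
          ((univ.filter (fun b => ∀ w ∈ nb G v, w ∉ U → c w ≠ b)).card : ℝ)) ∧
        (∀ j b, ∑ v ∈ U, |g j b v| ≤ 4 / (x : ℝ) ^ B) ∧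
        (∀ j, ∑ b, |∑ v ∈ univ.filter (fun v => v ∉ U ∧ c v = b), g j b v| ≤
          1 / (d : ℝ) * ∑ b, |∑ v, g j b v| + 130 * Real.sqrt (e j) + 1 / (x : ℝ) ^ E) ∧
        (∀ j, ∑ v ∈ univ.filter (fun v => v ∉ U), |g j (c v) v| ≤
          1 / (d : ℝ) * ∑ b, ∑ v, |g j b v| + 1 / (x : ℝ) ^ E) ∧
        ∀ q, (((Q q).filter (fun y => y.2 ∉ U ∧ c y.2 = y.1)).card : ℝ) ≤ (x : ℝ) ^ C'

/-! ## The last vertices -/

/-- SUBL (block, from SYM, `chern_up`): random sublists. Take `λ = ⌈d / (2 x ^ (2 K1 + 1))⌉`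
elements of every `L v` and choose `l` of them independently (coordinates `(v, i)`). -/
def Stmt_SUBL : Prop :=
  ∀ (C K K1 : ℕ), ∃ (C' N x0 : ℕ),
    ∀ {V : Type u} [Fintype V] (G : SimpleGraph V) (d x P : ℕ) (J R : Type u) [Fintype J]
      [Fintype R] (S : J → Finset V) (g : J → Fin P → V → ℝ) (Q : R → Finset (Fin P × V))
      (U : Finset V) (L : V → Finset (Fin P)), x0 ≤ x → Real.log d ≤ x → x ^ N ≤ d →
      P ≤ 2 * d → 0 < P → (∀ v, (nb G v).card ≤ 2 * d) →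
      (∀ v, ((nb G v ∩ U).card : ℝ) ≤ d / (x : ℝ) ^ (C + 2 * K1 + 7)) →
      (∀ v ∈ U, (d : ℝ) / (2 * (x : ℝ) ^ (2 * K1 + 1)) ≤ ((L v).card : ℝ)) →
      (∀ j b v, v ∉ S j → g j b v = 0) → (∀ j b v, |g j b v| ≤ (x : ℝ) ^ K / d) →
      (∀ j, ((S j).card : ℝ) ≤ Real.exp ((x : ℝ) ^ C)) →
      (∀ v, ((univ.filter (fun j => v ∈ S j)).card : ℝ) ≤ Real.exp ((x : ℝ) ^ C)) →
      (∀ j b, ∑ v ∈ U, |g j b v| ≤ 1 / (x : ℝ) ^ (C + 2 * K1 + 7)) →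
      Upt (d * (x : ℝ) ^ K) (Real.exp ((x : ℝ) ^ C)) Q →
      ∃ s : V → Fin (32 * x ^ (C + 3)) → Fin P, (∀ v ∈ U, ∀ i, s v i ∈ L v) ∧
        (∀ v ∈ U, ∀ b, (((nb G v ∩ U) ×ˢ (univ : Finset (Fin (32 * x ^ (C + 3))))).filter
          (fun y => s y.1 y.2 = b)).card ≤ x ^ (C + 3)) ∧
        (∀ j, ∑ v ∈ U, ∑ i, |g j (s v i) v| ≤ 1 / (4 * x)) ∧
        ∀ q, (((U ×ˢ (univ : Finset (Fin (32 * x ^ (C + 3))))).filter
          (fun y => (s y.1 y.2, y.1) ∈ Q q)).card : ℝ) ≤ (x : ℝ) ^ C'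

/-- LSTL (block, from `Stmt_LLLI` with `T = 1 / 4`, `M = l`, one package for every ordered pair of
adjacent vertices of `U`, weight `exp 1 * number of equal pairs / l ^ 2`): list colouring. -/
def Stmt_LSTL : Prop :=
  ∀ {V : Type u} [Fintype V] (G : SimpleGraph V) (P l k : ℕ) (U : Finset V)
    (s : V → Fin l → Fin P), 0 < l → 32 * k ≤ l →
    (∀ v ∈ U, ∀ b, (((nb G v ∩ U) ×ˢ (univ : Finset (Fin l))).filter
      (fun y => s y.1 y.2 = b)).card ≤ k) →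
    ∃ f : V → Fin l, ∀ v ∈ U, ∀ w ∈ U, G.Adj v w → s v (f v) ≠ s w (f w)

/-- **OWN** (block, from ITER, SUBL, LSTL). ITER with `B = C + 2 K1 + 8`. ITER is applied to the tests
`g j b v [b ∉ Fb v]` and to `[w ∈ N(v), b ∈ Fb w] / (2 d)`, `|g j b0 v| [b ∈ Fb v]` (index
`(j, b0)`); the vertices with a forbidden colour are coloured again with SUBL and LSTL. -/
def Stmt_OWN : Prop :=
  ∀ (C K1 K : ℕ), ∃ (C' N0 N x0 : ℕ),
    ∀ {V : Type u} [Fintype V] (G : SimpleGraph V) (d x P : ℕ) (J R : Type u) [Fintype J]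
      [Fintype R] (S : J → Finset V) (g : J → Fin P → V → ℝ) (e : J → ℝ)
      (Q : R → Finset (Fin P × V)) (Fb : V → Finset (Fin P)), x0 ≤ x → Real.log d ≤ x →
      x ^ N ≤ d → P ≤ 2 * d → (d : ℝ) - d / (x : ℝ) ^ (C + 2 * K1 + 8) ≤ P →
      (∀ v, |((nb G v).card : ℝ) - d| ≤ d / (x : ℝ) ^ N0) →
      (∀ v, (d : ℝ) ^ 2 / (x : ℝ) ^ K1 ≤ ((mis G (nb G v)).card : ℝ)) →
      Sig ((x : ℝ) ^ K / d) (Real.exp ((x : ℝ) ^ C)) S g (fun j => e j / d) →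
      Upt (d * (x : ℝ) ^ K) (Real.exp ((x : ℝ) ^ C)) Q →
      (∀ v, ((Fb v).card : ℝ) ≤ d / (x : ℝ) ^ (C + 2 * K1 + 8)) →
      ∃ c : V → Fin P, (∀ v w, G.Adj v w → c v ≠ c w) ∧ (∀ v, c v ∉ Fb v) ∧
        (∀ j, ∑ b, |∑ v ∈ univ.filter (fun v => c v = b), g j b v| ≤
          1 / (d : ℝ) * ∑ b, (|∑ v, g j b v| + ∑ v ∈ univ.filter (fun v => b ∈ Fb v), |g j b v|) +
            130 * Real.sqrt (e j) + 1 / x) ∧
        (∀ j, ∑ v, |g j (c v) v| ≤ 1 / (d : ℝ) * ∑ b, ∑ v, |g j b v| + 1 / x) ∧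
        ∀ q, (((Q q).filter (fun y => c y.2 = y.1)).card : ℝ) ≤ (x : ℝ) ^ C'

end Pool.Agent.Work.MP_db9399_ow
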